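import Mathlib
import Pool.Agent.P.MP_f21612_lc.Core

open Set
open scoped Cardinal

namespace Pool.Agent.Results.MP_f21612_lc.Omega1

/-- An ideal on the naturals: closed under subsets and finite unions, proper, and containing
every finite set. -/
def IsIdeal (I : Set (Set ℕ)) : Prop :=
  (∀ A ∈ I, ∀ B, B ⊆ A → B ∈ I) ∧ (∀ A ∈ I, ∀ B ∈ I, A ∪ B ∈ I) ∧ Set.univ ∉ I ∧
    ∀ A : Set ℕ, A.Finite → A ∈ I

/-- The cofinality of `I`: the least size of a subfamily `B` of `I` such that every member of `I`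
is contained in a member of `B`. -/
noncomputable def cof (I : Set (Set ℕ)) : Cardinal :=
  sInf {κ | ∃ B ⊆ I, #B = κ ∧ ∀ X ∈ I, ∃ A ∈ B, X ⊆ A}

/-- The cofinality of `I` relative to `J`: the least size of a subfamily `B` of `I` such that
for every member `X` of `I` there is `A` in `B` with `X \ A` in `J`. -/
noncomputable def relCof (J I : Set (Set ℕ)) : Cardinal :=
  sInf {κ | ∃ B ⊆ I, #B = κ ∧ ∀ X ∈ I, ∃ A ∈ B, X \ A ∈ J}

theorem result : ∃ I J : Set (Set ℕ), Maximal IsIdeal I ∧ cof I = 𝔠 ∧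
    IsIdeal J ∧ J ⊆ I ∧ relCof J I = ℵ₁ := by
  classical
  obtain ⟨U, p, A, e, hUc, hpc, hAU, hfin, hlim, hfree⟩ := Pool.Agent.P.MP_f21612_lc.main
  have hideal : ∀ V : Ultrafilter ℕ, (V : Filter ℕ) ≤ Filter.cofinite →
      IsIdeal {X | X ∉ V} := by
    intro V hV
    refine ⟨fun X hX Y hYX hY => hX (Filter.mem_of_superset hY hYX), fun X hX Y hY h => ?_,
      fun h => h Filter.univ_mem, fun X hX h => ?_⟩
    · rcases Ultrafilter.union_mem_iff.1 h with h | h
      · exact hX h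
      · exact hY h
    · exact (Ultrafilter.compl_mem_iff_notMem.1 (hV hX.compl_mem_cofinite)) h
  have hcompl : ∀ i, (A i)ᶜ ∈ {X | X ∉ U} := fun i h =>
    (Ultrafilter.compl_mem_iff_notMem.1 h) (hAU i)
  have hne : Nonempty Pool.Agent.P.MP_f21612_lc.W := by
    obtain ⟨α, -⟩ := Pool.Agent.P.MP_f21612_lc.bounded_of_countable ∅ countable_empty
    exact ⟨α⟩
  refine ⟨{X | X ∉ U}, {X | ∀ α, X ∉ p α}, ⟨hideal U hUc, ?_⟩, ?_, ?_, ?_, ?_⟩
  · -- maximality
    intro I' hI' hle X hX hXU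
    have h1 : Xᶜ ∈ I' := hle (fun h => (Ultrafilter.compl_mem_iff_notMem.1 h) hXU)
    have h2 := hI'.2.1 X hX _ h1
    rw [union_compl_self] at h2
    exact hI'.2.2.1 h2
  · -- cofinality continuum
    have hmem : #({X | X ∉ U} : Set (Set ℕ)) ∈
        {κ | ∃ B ⊆ ({X | X ∉ U} : Set (Set ℕ)), #B = κ ∧ ∀ X ∈ ({X | X ∉ U} : Set (Set ℕ)),
          ∃ A ∈ B, X ⊆ A} :=
      ⟨_, Subset.rfl, rfl, fun X hX => ⟨X, hX, Subset.rfl⟩⟩
    apply le_antisymm
    · refine le_trans (csInf_le' hmem) ?_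
      rw [← Cardinal.mk_set_nat]
      exact Cardinal.mk_set_le _
    · refine le_csInf ⟨_, hmem⟩ ?_
      rintro κ ⟨B, hBI, rfl, hB⟩
      by_contra hlt
      rw [not_le, ← Cardinal.mk_set_nat] at hlt
      choose b hbB hb using fun i => hB _ (hcompl i)
      obtain ⟨Y, hY⟩ := Cardinal.exists_infinite_fiber (fun i => (⟨b i, hbB i⟩ : B)) hlt
      have hYU : (Y : Set ℕ)ᶜ ∈ U := Ultrafilter.compl_mem_iff_notMem.2 (hBI Y.2)
      refine Set.infinite_coe_iff.1 hY ((hfin _ hYU).subset ?_)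
      intro i hi
      have hi' : b i = Y := congrArg Subtype.val hi
      have := hb i
      rw [hi'] at this
      exact compl_subset_comm.1 this
  · -- the small ideal
    obtain ⟨α0⟩ := hne
    refine ⟨fun X hX Y hYX α => (hideal _ (hpc α)).1 X (hX α) Y hYX,
      fun X hX Y hY α => (hideal _ (hpc α)).2.1 X (hX α) Y (hY α),
      fun h => h α0 Filter.univ_mem, fun X hX α => (hideal _ (hpc α)).2.2.2 X hX⟩
  · intro X hX hXU
    obtain ⟨α, hα⟩ := hlim X hXU
    exact hX α (hα α le_rfl)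
  · -- relative cofinality
    have hmem : #(range fun γ => (A (e γ))ᶜ) ∈
        {κ | ∃ B ⊆ ({X | X ∉ U} : Set (Set ℕ)), #B = κ ∧ ∀ X ∈ ({X | X ∉ U} : Set (Set ℕ)),
          ∃ A ∈ B, X \ A ∈ ({X | ∀ α, X ∉ p α} : Set (Set ℕ))} := by
      refine ⟨_, ?_, rfl, fun X hX => ?_⟩
      · rintro _ ⟨γ, rfl⟩
        exact hcompl _
      · obtain ⟨γ, hγ⟩ := hlim _ (Ultrafilter.compl_mem_iff_notMem.2 hX)
        refine ⟨_, ⟨γ, rfl⟩, fun α h => ?_⟩
        rcases le_total α γ with h1 | h1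
        · exact hfree α γ h1 (Filter.mem_of_superset h fun n hn => not_not.1 hn.2)
        · exact (Ultrafilter.compl_mem_iff_notMem.1 (hγ α h1))
            (Filter.mem_of_superset h diff_subset)
    apply le_antisymm
    · refine le_trans (csInf_le' hmem) ?_
      rw [← Pool.Agent.P.MP_f21612_lc.mk_W]
      exact Cardinal.mk_range_le
    · refine le_csInf ⟨_, hmem⟩ ?_
      rintro κ ⟨B, hBI, rfl, hB⟩
      by_contra hlt
      rw [not_le, ← Cardinal.succ_aleph0, Order.lt_succ_iff,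
        Cardinal.le_aleph0_iff_set_countable] at hlt
      choose g hg using fun Y : B => hlim _ (Ultrafilter.compl_mem_iff_notMem.2 (hBI Y.2))
      haveI : Countable B := hlt.to_subtype
      obtain ⟨α, hα⟩ := Pool.Agent.P.MP_f21612_lc.bounded_of_countable (range g)
        (countable_range g)
      obtain ⟨Y, hY, hYJ⟩ := hB _ (hcompl (e α))
      apply hYJ α
      exact Filter.inter_mem (Ultrafilter.compl_mem_iff_notMem.2 (hfree α α le_rfl))
        (hg ⟨Y, hY⟩ α (hα _ ⟨⟨Y, hY⟩, rfl⟩).le)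

end Pool.Agent.Results.MP_f21612_lc.Omega1
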